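import Pool.Agent.H5.OR.Targets3
import Pool.Agent.H5.OR.All

/-!
# Row M1 of board ors_modules (MP_e1fd52_al): the tree
-/

set_option autoImplicit false

open scoped Classical

namespace Pool.Agent.H17.ORS

open ORg

theorem pf_M1 (SM : T_SM) (SK : T_SK) : T_M1 := by
  intro I X Z P G _ _ w a iF iP hy
  have hw1 : ∀ i, w i ≠ 1 := by
    intro i h
    rcases hy.root i 1 0 (by rw [zpow_zero, h]) with h | h <;> omega
  have hflinj : ∀ i, Function.Injective (fl (X1 := X i) (X2 := Z i)) := fun i =>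
    FreeGroup.map_injective Sum.inl_injective
  have hflw1 : ∀ i, (fl (w i) : FreeGroup (X i ⊕ Z i)) ≠ 1 := by
    intro i h
    exact hw1 i (hflinj i (by rw [h, map_one]))
  have hRfl : ∀ i, Root (fl (w i) : FreeGroup (X i ⊕ Z i)) := by
    intro i v k hv
    have h1 : v * fl (w i) * v⁻¹ = fl (w i) := by
      rw [← hv, ← zpow_one v, ← zpow_mul, ← zpow_neg, ← zpow_add, ← zpow_add]
      congr 1
      ring
    obtain ⟨x1, rfl⟩ := All.FF (X i) (Z i) v (w i) (w i) (hw1 i) h1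
    apply hy.root i x1 k
    apply hflinj i
    rw [map_zpow, hv]
  have hj1 : ∀ i, Function.Injective (zpowersHom P (a i)) := by
    intro i
    rw [injective_iff_map_eq_one]
    intro n hn
    by_contra hne
    rw [zpowersHom_apply] at hn
    exact hy.inf i (Multiplicative.toAdd n) (fun h => hne (by
      rw [← toAdd_eq_zero]; exact h)) hn
  have hj2 : ∀ i, Function.Injective (zpowersHom (FreeGroup (X i ⊕ Z i)) (fl (w i))) := by
    intro i
    rw [injective_iff_map_eq_one]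
    intro n hn
    by_contra hne
    rw [zpowersHom_apply] at hn
    exact hflw1 i ((IsMulTorsionFree.zpow_eq_one_iff_left (fun h => hne (by
      rw [← toAdd_eq_zero]; exact h))).1 hn)
  obtain ⟨hPi, hFi, hint, S, r, b, hAm⟩ := SM _ _ _ _ _ _ _ _ _ hy.st hj1 hj2
  have heq : ∀ i, iF i (fl (w i)) = iP (a i) := by
    intro i
    have := hy.st.comm i (Multiplicative.ofAdd 1)
    simpa [zpowersHom_apply] using this.symm
  have hinter : ∀ i x y, iF i x = iP y → ∃ k : ℤ, x = fl (w i) ^ k ∧ y = a i ^ k := by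
    intro i x y hxy
    obtain ⟨h, h1, h2⟩ := hint i y x hxy.symm
    exact ⟨Multiplicative.toAdd h, by rw [h2, zpowersHom_apply], by rw [h1, zpowersHom_apply]⟩
  refine ⟨S, r, b, ⟨hy, hFi, hPi, hAm, heq, hinter, ?_⟩⟩
  refine SK G I iP.range (fun i => (iF i).range) S r b hAm ?_
  rintro i x ⟨y, rfl⟩ c ⟨p1, rfl⟩ ⟨c1, hc1⟩ hc ⟨p2, hp2⟩
  obtain ⟨k, hk1, hk2⟩ := hinter i c1 p1 hc1
  have hk0 : k ≠ 0 := by
    rintro rfl
    apply hc
    rw [hk2, zpow_zero, map_one]
  obtain ⟨n, hn1, hn2⟩ := hinter i (y * fl (w i) ^ k * y⁻¹) p2 (by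
    rw [hp2, ← hc1, hk1, map_mul, map_mul, map_inv])
  have hyz := All.ML (X i ⊕ Z i) (fl (w i)) y k n (hRfl i) hk0 hn1
  obtain ⟨m, hm⟩ := Subgroup.mem_zpowers_iff.1 hyz
  exact ⟨a i ^ m, by rw [map_zpow, ← heq, ← map_zpow, hm]⟩

end Pool.Agent.H17.ORS
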