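import Pool.Agent.H5.OR.Targets3

/-!
# Row MQ of board ors_modules (MP_e1fd52_al): stable equivalence in the normal form
-/

set_option autoImplicit false

open scoped Classical

namespace Pool.Agent.H17.ORS

open ORg

/-- the homomorphism of the stabilised free groups -/
noncomputable def exH {X Y : Type} (a : FreeGroup X →* FreeGroup Y) (N : Type) :
    FreeGroup (X ⊕ N) →* FreeGroup (Y ⊕ N) :=
  FreeGroup.lift (Sum.elim (fun x => fl (a (FreeGroup.of x))) fun n => FreeGroup.of (Sum.inr n))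

theorem exH_fl {X Y : Type} (a : FreeGroup X →* FreeGroup Y) (N : Type) (x : FreeGroup X) :
    exH a N (fl x) = fl (a x) := by
  have h : (exH a N).comp fl = (fl : FreeGroup Y →* FreeGroup (Y ⊕ N)).comp a := by
    apply FreeGroup.ext_hom
    intro i
    simp [exH, fl]
  exact DFunLike.congr_fun h x

theorem exH_inr {X Y : Type} (a : FreeGroup X →* FreeGroup Y) (N : Type) (n : N) :
    exH a N (FreeGroup.of (Sum.inr n)) = FreeGroup.of (Sum.inr n) := by
  simp [exH]

theorem exH_comp {X Y : Type} (a : FreeGroup X →* FreeGroup Y) (b : FreeGroup Y →* FreeGroup X)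
    (N : Type) (hba : ∀ x, b (a x) = x) : (exH b N).comp (exH a N) = MonoidHom.id _ := by
  apply FreeGroup.ext_hom
  intro i
  rcases i with i | n
  · have h1 : (FreeGroup.of (Sum.inl i) : FreeGroup (X ⊕ N)) = fl (FreeGroup.of i) := by
      simp [fl]
    rw [MonoidHom.comp_apply, h1, exH_fl, exH_fl, hba]
    rfl
  · rw [MonoidHom.comp_apply, exH_inr, exH_inr]
    rfl

/-- the isomorphism of the stabilised free groups -/
noncomputable def exE {X Y : Type} (a : FreeGroup X ≃* FreeGroup Y) (N : Type) :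
    FreeGroup (X ⊕ N) ≃* FreeGroup (Y ⊕ N) :=
  MonoidHom.toMulEquiv (exH a.toMonoidHom N) (exH a.symm.toMonoidHom N)
    (exH_comp _ _ N fun x => a.symm_apply_apply x) (exH_comp _ _ N fun x => a.apply_symm_apply x)

theorem exE_fl {X Y : Type} (a : FreeGroup X ≃* FreeGroup Y) (N : Type) (x : FreeGroup X) :
    exE a N (fl x) = fl (a x) := exH_fl a.toMonoidHom N x

/-- associativity -/
noncomputable def asE (X Z N : Type) :
    FreeGroup ((X ⊕ Z) ⊕ N) ≃* FreeGroup (X ⊕ (Z ⊕ N)) :=
  FreeGroup.freeGroupCongr (Equiv.sumAssoc X Z N)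

theorem asE_fl (X Z N : Type) (x : FreeGroup X) :
    asE X Z N (fl (fl x : FreeGroup (X ⊕ Z))) = fl x := by
  have h : ((asE X Z N).toMonoidHom.comp fl).comp fl = (fl : FreeGroup X →* _) := by
    apply FreeGroup.ext_hom
    intro i
    simp [asE, fl]
  exact DFunLike.congr_fun h x

/-- exchange of the additional generators -/
noncomputable def swE (X Z N : Type) : FreeGroup (X ⊕ (Z ⊕ N)) ≃* FreeGroup (X ⊕ (N ⊕ Z)) :=
  FreeGroup.freeGroupCongr (Equiv.sumCongr (Equiv.refl X) (Equiv.sumComm Z N))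

theorem swE_fl (X Z N : Type) (x : FreeGroup X) : swE X Z N (fl x) = fl x := by
  have h : (swE X Z N).toMonoidHom.comp fl = (fl : FreeGroup X →* _) := by
    apply FreeGroup.ext_hom
    intro i
    simp [swE, fl]
  exact DFunLike.congr_fun h x

theorem pf_MQ (WU : T_WU) : T_MQ := by
  intro X X1 Z X' X1' Z' _ _ _ _ _ _ w w' u u' α α' e hR hW hR' hW' hα hα' he
  have hα1 : α.symm (fl u) = w := by rw [← hα, α.symm_apply_apply]
  have hα1' : α'.symm (fl (u' ^ e)) = w' ^ e := by
    rw [map_zpow, ← hα', map_zpow, α'.symm_apply_apply]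
  constructor
  · rintro ⟨N, N', _, _, A, hA⟩
    refine WU X1 X1' (Z ⊕ N) (Z' ⊕ N') u u' e
      (((((asE X1 Z N).symm.trans (exE α.symm N)).trans A).trans (exE α' N')).trans
        (asE X1' Z' N')) hR hW hR' hW' he ?_
    have h1 : (asE X1 Z N).symm (fl u) = fl (fl u) := by
      rw [MulEquiv.symm_apply_eq, asE_fl]
    simp only [MulEquiv.trans_apply]
    rw [h1, exE_fl, hα1, hA, exE_fl, map_zpow, hα', ← map_zpow, asE_fl, map_zpow]
  · rintro ⟨β, hβ⟩
    refine ⟨Z', Z, inferInstance, inferInstance,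
      ((((((exE α Z').trans (asE X1 Z Z')).trans (exE β (Z ⊕ Z'))).trans (swE X1' Z Z')).trans
        (asE X1' Z' Z).symm).trans (exE α'.symm Z)), ?_⟩
    have h1 : (asE X1' Z' Z).symm (fl (u' ^ e)) = fl (fl (u' ^ e)) := by
      rw [MulEquiv.symm_apply_eq, asE_fl]
    simp only [MulEquiv.trans_apply]
    rw [exE_fl, hα, asE_fl, exE_fl, hβ, swE_fl, h1, exE_fl, hα1']

end Pool.Agent.H17.ORS
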