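import Pool.Agent.H5.OR.Targets3

/-!
# Row MW of board ors_modules (MP_e1fd52_al): the theorem on several words
-/

set_option autoImplicit false

open scoped Classical

namespace Pool.Agent.H17.ORS

open ORg

theorem pf_MW (MP : T_MP) (MV : T_MV) (M9 : T_M9) (MI : T_MI) (MQ : T_MQ) : T_MW := by
  intro I I' Y Y' _ _ _ _ X X' _ _ w w' R R' hw hw' hKG hKG' hInf hInf'
  obtain ⟨iF, iP, hst⟩ := MP I Y X w R
  obtain ⟨iF', iP', hst'⟩ := MP I' Y' X' w' R'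
  obtain ⟨X1, Z, hX1, hZ, α, u, iF1, hα, hnt, hWh, hy⟩ := MV I X _ _ w _ iF iP hst hw hKG hInf
  obtain ⟨X1', Z', hX1', hZ', α', u', iF1', hα', hnt', hWh', hy'⟩ :=
    MV I' X' _ _ w' _ iF' iP' hst' hw' hKG' hInf'
  have eX : ∀ i, Nonempty (X i ≃ X1 i ⊕ Z i) := fun i => ⟨Equiv.ofFreeGroupEquiv (α i)⟩
  have eX' : ∀ i, Nonempty (X' i ≃ X1' i ⊕ Z' i) := fun i => ⟨Equiv.ofFreeGroupEquiv (α' i)⟩
  have eS : (Σ i, X i) ≃ (Σ i, X1 i) ⊕ (Σ i, Z i) :=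
    (Equiv.sigmaCongrRight fun i => Classical.choice (eX i)).trans (Equiv.sigmaSumDistrib X1 Z)
  have eS' : (Σ i, X' i) ≃ (Σ i, X1' i) ⊕ (Σ i, Z' i) :=
    (Equiv.sigmaCongrRight fun i => Classical.choice (eX' i)).trans (Equiv.sigmaSumDistrib X1' Z')
  constructor
  · intro hG
    obtain ⟨hZZ, σ0, β, hσ⟩ := M9 I X1 Z _ _ u _ iF1 iP I' X1' Z' _ _ u' _ iF1' iP' hy hy' hG
    obtain ⟨σ, hσ0⟩ : ∃ σ : I ≃ I', ∀ i, σ i = (σ0 ⟨i, hnt i⟩).1 :=
      ⟨(Equiv.subtypeUnivEquiv hnt).symm.trans (σ0.trans (Equiv.subtypeUnivEquiv hnt')),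
        fun i => rfl⟩
    have key : ∀ i, ∃ (αi : FreeGroup (X1 i) ≃* FreeGroup (X1' (σ i))) (g : PresentedGroup R'),
        (αi (u i) = u' (σ i) ∧ β (PresentedGroup.of (Sum.inl i)) =
          g * PresentedGroup.of (Sum.inl (σ i)) * g⁻¹) ∨
        (αi (u i) = (u' (σ i))⁻¹ ∧ β (PresentedGroup.of (Sum.inl i)) =
          g * (PresentedGroup.of (Sum.inl (σ i)))⁻¹ * g⁻¹) := by
      intro i
      have h := hσ ⟨i, hnt i⟩
      rw [hσ0 i]
      exact h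
    refine ⟨?_, σ, β, ?_⟩
    · obtain ⟨eZ⟩ := hZZ
      refine ⟨eS.trans (Equiv.trans (Equiv.sumCongr ?_ (Equiv.ofFreeGroupEquiv eZ)) eS'.symm)⟩
      exact Equiv.sigmaCongr σ fun i => Equiv.ofFreeGroupEquiv (key i).choose
    · intro i
      obtain ⟨αi, g, h⟩ := key i
      refine ⟨g, ?_⟩
      have hMQ : ∀ e : ℤ, (e = 1 ∨ e = -1) → αi (u i) = u' (σ i) ^ e →
          StEq (w i) (w' (σ i) ^ e) := by
        intro e he h1
        have := hX1 i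
        have := hX1' (σ i)
        have := hZ i
        have := hZ' (σ i)
        have := hnt i
        have := hnt' (σ i)
        exact (MQ (X i) (X1 i) (Z i) (X' (σ i)) (X1' (σ i)) (Z' (σ i)) (w i) (w' (σ i)) (u i)
          (u' (σ i)) (α i) (α' (σ i)) e (hy.root i) (hWh i) (hy'.root (σ i)) (hWh' (σ i)) (hα i)
          (hα' (σ i)) he).2 ⟨αi, h1⟩
      rcases h with ⟨h1, h2⟩ | ⟨h1, h2⟩
      · refine Or.inl ⟨?_, h2⟩
        have h3 := hMQ 1 (Or.inl rfl) (by rw [zpow_one, h1])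
        rwa [zpow_one] at h3
      · refine Or.inr ⟨?_, h2⟩
        have h3 := hMQ (-1) (Or.inr rfl) (by rw [zpow_neg_one, h1])
        rwa [zpow_neg_one] at h3
  · rintro ⟨⟨eXX⟩, σ, β, hσ⟩
    have key : ∀ i, ∃ (αi : FreeGroup (X1 i) ≃* FreeGroup (X1' (σ i))) (g : PresentedGroup R'),
        (αi (u i) = u' (σ i) ∧ β (PresentedGroup.of (Sum.inl i)) =
          g * PresentedGroup.of (Sum.inl (σ i)) * g⁻¹) ∨
        (αi (u i) = (u' (σ i))⁻¹ ∧ β (PresentedGroup.of (Sum.inl i)) =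
          g * (PresentedGroup.of (Sum.inl (σ i)))⁻¹ * g⁻¹) := by
      intro i
      obtain ⟨g, h⟩ := hσ i
      have hMQ : ∀ e : ℤ, (e = 1 ∨ e = -1) → StEq (w i) (w' (σ i) ^ e) →
          ∃ αi : FreeGroup (X1 i) ≃* FreeGroup (X1' (σ i)), αi (u i) = u' (σ i) ^ e := by
        intro e he h1
        have := hX1 i
        have := hX1' (σ i)
        have := hZ i
        have := hZ' (σ i)
        have := hnt i
        have := hnt' (σ i)
        exact (MQ (X i) (X1 i) (Z i) (X' (σ i)) (X1' (σ i)) (Z' (σ i)) (w i) (w' (σ i)) (u i)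
          (u' (σ i)) (α i) (α' (σ i)) e (hy.root i) (hWh i) (hy'.root (σ i)) (hWh' (σ i)) (hα i)
          (hα' (σ i)) he).1 h1
      rcases h with ⟨h1, h2⟩ | ⟨h1, h2⟩
      · obtain ⟨αi, h3⟩ := hMQ 1 (Or.inl rfl) (by rw [zpow_one]; exact h1)
        rw [zpow_one] at h3
        exact ⟨αi, g, Or.inl ⟨h3, h2⟩⟩
      · obtain ⟨αi, h3⟩ := hMQ (-1) (Or.inr rfl) (by rw [zpow_neg_one]; exact h1)
        rw [zpow_neg_one] at h3
        exact ⟨αi, g, Or.inr ⟨h3, h2⟩⟩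
    have e1 : (Σ i, X1 i) ≃ (Σ i, X1' i) :=
      Equiv.sigmaCongr σ fun i => Equiv.ofFreeGroupEquiv (key i).choose
    have hcard : Nat.card (Σ i, Z i) = Nat.card (Σ i, Z' i) := by
      have c1 := Nat.card_congr (eS.symm.trans (eXX.trans eS'))
      have c2 := Nat.card_congr e1
      rw [Nat.card_sum, Nat.card_sum] at c1
      omega
    have hZZ : Nonempty (FreeGroup (Σ i, Z i) ≃* FreeGroup (Σ i, Z' i)) :=
      ⟨FreeGroup.freeGroupCongr (Classical.choice (Finite.card_eq.1 hcard))⟩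
    exact MI I X1 Z _ _ u _ iF1 iP I' X1' Z' _ _ u' _ iF1' iP' hy.st hy'.st hZZ ⟨σ, β, key⟩

end Pool.Agent.H17.ORS
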